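import Pool.Agent.helper62.QU.Spec

set_option autoImplicit false

open scoped MatrixGroups ContDiff Topology UpperHalfPlane
open UpperHalfPlane MeasureTheory Filter Set

namespace Pool.Agent.QU

private theorem DOB_count (Γ : Subgroup SL(2, ℝ)) (hΓ : SurfaceGroup Γ) : Countable Γ := by
  classical
  have h : (Set.univ : Set Γ) ⊆ ⋃ n : ℕ,
      {γ : Γ | ∃ z ∈ (compactCovering ℍ n ∪ {UpperHalfPlane.I}), γ • z ∈ (compactCovering ℍ n ∪ {UpperHalfPlane.I})} := by
    intro γ _
    have h1 : γ • UpperHalfPlane.I ∈ ⋃ n, compactCovering ℍ n := by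
      rw [iUnion_compactCovering]
      exact Set.mem_univ _
    obtain ⟨n, hn⟩ := Set.mem_iUnion.mp h1
    exact Set.mem_iUnion.mpr ⟨n, UpperHalfPlane.I, Or.inr rfl, Or.inl hn⟩
  rw [← Set.countable_univ_iff]
  refine Set.Countable.mono h (Set.countable_iUnion fun n => ?_)
  exact (hΓ.discrete _ ((isCompact_compactCovering ℍ n).union isCompact_singleton)).countable

theorem DOB (h1 : INV_stmt) : DOB_stmt := by
  intro Γ F hΓ hF
  haveI := DOB_count Γ hΓ
  haveI := h1.2.1 Γ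
  haveI := h1.2.2.1
  have hfd : IsFundamentalDomain Γ F (volume : Measure ℍ) :=
    IsFundamentalDomain.mk' hF.meas.nullMeasurableSet hF.uniq
  obtain ⟨K, hK, hFK⟩ := hF.rel
  refine ⟨inferInstance, hfd, ?_, ?_, ?_, ?_⟩
  · have hne : (volume : Measure ℍ) ≠ 0 := by
      intro h0
      have h2 := (isOpen_univ (X := ℍ)).measure_pos (volume : Measure ℍ) ⟨UpperHalfPlane.I, trivial⟩
      rw [h0] at h2
      simp at h2
    exact pos_iff_ne_zero.mpr (hfd.measure_ne_zero hne)
  · exact lt_of_le_of_lt (measure_mono hFK) hK.measure_lt_top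
  · intro F' hF'
    exact ⟨hF'.measure_eq hfd, fun f hf => hF'.setIntegral_eq hfd hf⟩
  · intro K₁ K₂ hK₁ hK₂
    refine (hΓ.discrete _ (hK₁.union hK₂)).subset ?_
    rintro γ ⟨z, hz, hz2⟩
    exact ⟨z, Or.inl hz, Or.inr hz2⟩

end Pool.Agent.QU
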